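import Mathlib
import Pool.Agent.Y582.CR.Rows

set_option autoImplicit false

/-!
# The strong polarized relation at the size of the power set of every successor cardinal
-/

namespace Pool.Agent.Results.MP_5d9fac_lc.EverySuccessor

open Cardinal Pool.Agent.Helper669.Forcing Pool.Agent.Helper669.K Pool.Agent.Y582.CR

/-- For every cardinal `μ` there are a forcing notion `P` and a cardinal `ν > μ` such that it is
forced that all cardinals are preserved and, for EVERY uncountable regular cardinal `κ ≤ μ` (in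
particular for every successor cardinal `κ ≤ μ`, `κ = ℵ₁` included) and every set `Θ` of fewer
than `κ` colours, `κ` is regular, `2 ^ κ = ν`, and the strong polarized relation
`(ν, κ) → (ν, κ)` holds for colourings with values in `Θ`. -/
theorem result (μ : Cardinal.{0}) :
    ∃ (P : Type) (_ : Preorder P) (ν : Cardinal.{0}), Nonempty P ∧ μ < ν ∧ ∀ p : P,
      p ∈ CardinalsPreserved.{0, 0} P ∧ ∀ κ : Cardinal.{0}, κ.IsRegular → ℵ₀ < κ → κ ≤ μ →
        p ∈ StaysRegular P κ ∧ p ∈ PowerSize P κ.ord.ToType ν.ord.ToType ∧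
        ∀ Θ : Type, #Θ < κ → p ∈ PolarizedCol P ν.ord.ToType κ.ord.ToType Θ := by
  obtain ⟨L, ρ, hμL, hL, h2, hρ⟩ := exists_singular_omega μ
  have hcc : ∀ (ι : Type) (f : ι → CC L), ℵ₀ < #ι → ∃ i j, i ≠ j ∧ ∃ r, r ≤ f i ∧ r ≤ f j :=
    fun ι f hι => CC.ccc ι f hι
  have hN : #(2 ^ #L : Cardinal.{0}).ord.ToType = 2 ^ #L := mk_ord_toType _
  refine ⟨CC L, inferInstance, 2 ^ #L, ⟨⟨∅, Set.finite_empty, fun _ _ _ _ h => absurd h (by simp)⟩⟩,
    hμL.trans (cantor _), fun p => ⟨cardinalsPreserved_of_ccc hcc p, fun κ hκ hκ0 hκμ =>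
      ⟨staysRegular_of_cc le_rfl hκ hκ0 hcc p,
        powerSize_cohen_omega hκ0.le ρ hL (hκμ.trans_lt hμL) h2 hρ hN p,
        fun Θ hΘ => polarizedCol_cohen hκ hκ0 ρ hL (hκμ.trans_lt hμL) h2 hρ hN hΘ p⟩⟩⟩

end Pool.Agent.Results.MP_5d9fac_lc.EverySuccessor
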